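import Pool.Agent.Helper97.PD.Defs2

/-!
# Project PD, block E2: the triples and the signs for `y ^ 2 = f(x)` (statements)
-/

set_option autoImplicit false

namespace Pool.Agent.PDL

open VC IntermediateField NumberField IsDedekindDomain Pool.Agent.SC
open Pool.Agent.L (L0 MM)
open Pool.Agent.M (Moves OverPl inL0 IsZ NN sgn)

noncomputable section

section defs

variable {k K0 E U : Type} [Field k] [Field K0] [Field E] [Field U] [Algebra k K0]
  [Algebra k E] [Algebra E U] [Algebra K0 U]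

/-- the place `b` of `E(x)` lies over the point `o` of the line -/
def At (x : K0) (b : Place E (L0 E K0 (U := U))) : Option E → Prop
  | none => inL0 x ∉ b.ring
  | some e => b.ring.valuation (inL0 x - algebraMap E _ e) < 1

/-- The triples for the two points `a`, `b` of the line. -/
def Tr2 (x : K0) (f : Polynomial k) (a b : Option E) (b₁ b₂ : Place E (L0 E K0 (U := U)))
    (d : E) : Prop :=
  ∃ p q : Option E, At x b₁ p ∧ At x b₂ q ∧ BrP 2 f p ∧ BrP 2 f q ∧ p ≠ q ∧ p ≠ a ∧ p ≠ b ∧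
    q ≠ a ∧ q ≠ b ∧ d ^ 2 = dif p a * dif p b * (dif q a * dif q b)

end defs

/-- The signs at the places over `a` and `b`. -/
def StmtSG2 : Prop :=
  ∀ (k K0 E U : Type) [Field k] [NumberField k] [Field K0] [Field E] [Field U] [Algebra k K0]
    [Algebra k E] [Algebra E U] [Algebra K0 U] [Algebra k U] [IsScalarTower k E U]
    [IsScalarTower k K0 U] (x : K0) (f : Polynomial k) (r : U), HypL E 2 x f r →
    ∀ (a b : Option E) (pa pb : Place E (L0 E K0 (U := U))), At x pa a → At x pb b →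
    ∀ (c : k) (Φ : (E ≃ₐ[k] E) →* (U ≃+* U)), c ≠ 0 → Pool.Agent.L.Act (K0 := K0) r c Φ →
    ∀ (σ : E ≃ₐ[k] E) b₁ b₂ d, Tr2 x f a b b₁ b₂ d → Moves (Φ σ) _ b₁ b₁ →
    Moves (Φ σ) _ b₂ b₂ →
    σ d = -d → ∀ z : U, IsZ b₁ b₂ z → ∀ P P' : Place E (NN E K0 2 (U := U)), OverPl pa P →
    OverPl pb P' → Moves (Φ σ) _ P P → Moves (Φ σ) _ P' P' → sgn (Φ σ) P z ≠ sgn (Φ σ) P' z

end

end Pool.Agent.PDL
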