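import Pool.Agent.Helper70.PD2.SG
import Pool.Agent.Helper28.PD.MRx

/-!
# Project PD, block E2 complete
-/

set_option autoImplicit false

namespace Pool.Agent.PDL

/-- **BLOCK E2.** -/
theorem rS2 : StmtRS2 := rS2_of sG2

end Pool.Agent.PDL
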