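import Pool.Agent.Helper70.PD2.Defs
import Pool.Agent.Helper28.TW3.SG
import Pool.Agent.Helper28.PD.LineA
import Pool.Agent.Helper45.PD.Ku

/-!
# Project PD, block E2: the signs for `y ^ 2 = f(x)`
-/

set_option autoImplicit false

namespace Pool.Agent.PDL

open VC IntermediateField NumberField IsDedekindDomain Pool.Agent.SC
open Pool.Agent.L (L0 MM)
open Pool.Agent.M (Moves OverPl inL0 IsZ NN sgn Cg Semi cg_const L0_le_NN moves_over)
open Pool.Agent.TOW.KX2aux (X_sub_ne X_sub_tr ord_sub_ne ord_sub_inf)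
open Pool.Agent.TW3.SG (sgn_wrap exists_sign)

namespace SG2

/-- the factor of the point `p` -/
def AP {E F : Type} [Field E] [Field F] [Algebra E F] (X : F) : Option E → F
  | none => 1
  | some p => X - algebraMap E F p

section dif

variable {E : Type} [Field E]

theorem dif_prod {a b p q : Option E} (hpa : p ≠ a) (hpb : p ≠ b) (hqa : q ≠ a) (hqb : q ≠ b)
    (hpq : p ≠ q) :
    dif a p * dif a q * (dif b p * dif b q) = dif p a * dif p b * (dif q a * dif q b) := by
  rcases a with _ | a <;> rcases b with _ | b <;> rcases p with _ | p <;> rcases q with _ | q <;>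
    first
    | exact absurd rfl hpa
    | exact absurd rfl hpb
    | exact absurd rfl hqa
    | exact absurd rfl hqb
    | exact absurd rfl hpq
    | (simp only [dif]; try ring)

theorem dif_ne {a p : Option E} (h : p ≠ a) : dif a p ≠ 0 := by
  rcases a with _ | a <;> rcases p with _ | p
  · exact one_ne_zero
  · exact one_ne_zero
  · exact one_ne_zero
  · exact sub_ne_zero.2 fun h0 => h (by rw [h0])

theorem dif_fix {σ : E ≃+* E} {a p : Option E} (ha : ∀ e, a = some e → σ e = e)
    (hp : ∀ e, p = some e → σ e = e) : σ (dif a p) = dif a p := by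
  rcases a with _ | a <;> rcases p with _ | p
  · exact map_one σ
  · exact map_one σ
  · exact map_one σ
  · show σ (a - p) = a - p
    rw [map_sub, ha a rfl, hp p rfl]

end dif

section ff

variable {E F : Type} [Field E] [Field F] [Algebra E F] [IsAlgClosed E]

theorem AP_ne {X : F} (hX : Transcendental E X) (p : Option E) : AP X p ≠ 0 := by
  rcases p with _ | p
  · exact one_ne_zero
  · exact X_sub_ne hX p

variable (hF : IsFunctionField E F) {X : F} (hX : Transcendental E X) (hg : E⟮X⟯ = ⊤)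

include hF hX hg

theorem ord_AP_fin {P : Place E F} {e : E} (h : X - algebraMap E F e ∈ P.ring.nonunits)
    (p : Option E) [Decidable (p = some e)] :
    ord P.ring (AP X p) = if p = some e then 1 else 0 := by
  rcases p with _ | p
  · rw [if_neg (by simp)]
    exact FF.ord_one hF P
  · by_cases hpe : p = e
    · subst hpe
      rw [if_pos rfl]
      exact Pool.Agent.PD.Line.ord_fin_one hF hX hg h
    · rw [if_neg (by simpa using hpe)]
      exact ord_sub_ne hF hX h hpe

theorem ord_AP_inf {P : Place E F} (h : X ∉ P.ring) (p : Option E) [Decidable (p = none)] :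
    ord P.ring (AP X p) = if p = none then 0 else -1 := by
  rcases p with _ | p
  · rw [if_pos rfl]
    exact FF.ord_one hF P
  · rw [if_neg (by simp)]
    show ord P.ring (X - algebraMap E F p) = -1
    rw [ord_sub_inf hF h]
    have h1 := Pool.Agent.PD.Line.ord_inf hF hX hg h (p := Polynomial.X) Polynomial.X_ne_zero
    rwa [Polynomial.aeval_X, Polynomial.natDegree_X, Nat.cast_one] at h1

end ff

section line

variable {k K0 E U : Type} [Field k] [NumberField k] [Field K0] [Field E] [Field U]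
  [Algebra k K0] [Algebra k E] [Algebra E U] [Algebra K0 U] [Algebra k U] [IsScalarTower k E U]
  [IsScalarTower k K0 U] {x : K0} {f : Polynomial k} {r : U}

theorem genL (H : HypL E 2 x f r) : E⟮inL0 (E := E) (U := U) x⟯ = ⊤ := by
  obtain ⟨F, hF⟩ : ∃ F : IntermediateField E (L0 E K0 (U := U)), F = IntermediateField.adjoin E
    {inL0 (E := E) (U := U) x} := ⟨_, rfl⟩
  rw [← hF]
  have hx : inL0 (E := E) (U := U) x ∈ F := by
    rw [hF]
    exact IntermediateField.mem_adjoin_simple_self E _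
  have hK : ∀ y : K0, inL0 (E := E) (U := U) y ∈ F := by
    intro y
    have hy : y ∈ IntermediateField.adjoin k {x} := by
      rw [H.gen]
      trivial
    induction hy using IntermediateField.adjoin_induction with
    | mem y hy =>
      rw [Set.mem_singleton_iff] at hy
      rw [hy]
      exact hx
    | algebraMap a =>
      have h1 : inL0 (E := E) (U := U) (algebraMap k K0 a) =
          algebraMap E (L0 E K0 (U := U)) (algebraMap k E a) := by
        apply Subtype.ext
        show algebraMap K0 U (algebraMap k K0 a) = algebraMap E U (algebraMap k E a)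
        rw [← IsScalarTower.algebraMap_apply, ← IsScalarTower.algebraMap_apply]
      rw [h1]
      exact F.algebraMap_mem _
    | add y z _ _ h1 h2 =>
      have h3 : inL0 (E := E) (U := U) (y + z) = inL0 y + inL0 z := Subtype.ext (map_add _ _ _)
      rw [h3]
      exact add_mem h1 h2
    | inv y _ h1 =>
      have h3 : inL0 (E := E) (U := U) y⁻¹ = (inL0 y)⁻¹ := Subtype.ext (map_inv₀ _ _)
      rw [h3]
      exact inv_mem h1
    | mul y z _ _ h1 h2 =>
      have h3 : inL0 (E := E) (U := U) (y * z) = inL0 y * inL0 z := Subtype.ext (map_mul _ _ _)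
      rw [h3]
      exact mul_mem h1 h2
  rw [eq_top_iff]
  rintro ⟨z, hz⟩ -
  have key : ∀ z : U, ∀ hz : z ∈ L0 E K0 (U := U), (⟨z, hz⟩ : L0 E K0 (U := U)) ∈ F := by
    intro z hz
    induction hz using IntermediateField.adjoin_induction with
    | mem z h =>
      obtain ⟨y, rfl⟩ := h
      exact hK y
    | algebraMap e => exact F.algebraMap_mem e
    | add y z hy hz h1 h2 => exact add_mem h1 h2
    | inv y hy h1 => exact inv_mem h1
    | mul y z hy hz h1 h2 => exact mul_mem h1 h2
  exact key z hz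

theorem at_nonunits {b : Place E (L0 E K0 (U := U))} {e : E} (h : At x b (some e)) :
    inL0 (E := E) (U := U) x - algebraMap E (L0 E K0 (U := U)) e ∈ b.ring.nonunits := by
  rw [ValuationSubring.mem_nonunits_iff]
  exact h

theorem at_unique (H : HypL E 2 x f r) {b b' : Place E (L0 E K0 (U := U))} {o : Option E}
    (h : At x b o) (h' : At x b' o) : b = b' := by
  have hcl : IsAlgClosed E := H.geo.clE
  rcases o with _ | e
  · exact Pool.Agent.PD.Line.inf_unique H.geo.ff H.trL (genL H) h h'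
  · exact Pool.Agent.PD.Line.fin_unique H.geo.ff H.trL (genL H) (at_nonunits h) (at_nonunits h')

theorem at_eq {b : Place E (L0 E K0 (U := U))} {o o' : Option E} (h : At x b o)
    (h' : At x b o') : o = o' := by
  have hm : ∀ e : E, At x b (some e) → inL0 (E := E) (U := U) x ∈ b.ring := fun e he =>
    Pool.Agent.PD.Line.mem_of_fin (at_nonunits he)
  rcases o with _ | e <;> rcases o' with _ | e'
  · rfl
  · exact absurd (hm e' h') h
  · exact absurd (hm e h) h'
  · have h1 : Cg b.ring (inL0 (E := E) (U := U) x) e := h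
    have h2 : Cg b.ring (inL0 (E := E) (U := U) x) e' := h'
    rw [h1.unique b.algebraMap_mem h2]

theorem at_cases (H : HypL E 2 x f r) (b : Place E (L0 E K0 (U := U))) :
    ∃ o : Option E, At x b o := by
  have hcl : IsAlgClosed E := H.geo.clE
  rcases Pool.Agent.PD.Line.cases H.geo.ff (X := inL0 (E := E) (U := U) x) b with h | ⟨e, h⟩
  · exact ⟨none, h⟩
  · exact ⟨some e, (ValuationSubring.mem_nonunits_iff _).1 h⟩

/-- fixed values -/
theorem at_fix {σ : E ≃+* E} {T : U ≃+* U} (hT : Semi K0 σ T)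
    {b : Place E (L0 E K0 (U := U))} {o : Option E} (h : At x b o) (hm : Moves T _ b b) :
    ∀ e, o = some e → σ e = e := by
  rintro e rfl
  have hx : algebraMap K0 U x ∈ L0 E K0 (U := U) := (inL0 (E := E) (U := U) x).2
  have hTx : T (algebraMap K0 U x) ∈ L0 E K0 (U := U) := by rw [hT.fixK]; exact hx
  have h1 := (hm.cg hT.const hx hTx (c := e)).1 h
  have e1 : (⟨T (algebraMap K0 U x), hTx⟩ : L0 E K0 (U := U)) = inL0 x :=
    Subtype.ext (hT.fixK x)
  rw [e1] at h1
  exact (Cg.unique b.algebraMap_mem h1 h)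

theorem coe_AP {N : IntermediateField E U} (X : N) (p : Option E) :
    ((AP X p : N) : U) = AP (X : U) p := by
  rcases p with _ | p <;> rfl

/-- the roots -/
theorem exists_w2 (H : HypL E 2 x f r) {p q : Option E} (hp : BrP 2 f p) (hq : BrP 2 f q)
    (hpq : p ≠ q) :
    ∃ w : U, w ^ 2 = AP (algebraMap K0 U x) p * AP (algebraMap K0 U x) q := by
  have hcl : IsAlgClosed E := H.geo.clE
  have hM := H.geo.cover.ff
  have hX := H.trM
  have h2p : Prime (2 : ℤ) := Int.prime_two
  have hr0 : (⟨r, r_mem⟩ : MM E K0 r) ≠ 0 := fun h => H.r_ne Nat.prime_two (congrArg Subtype.val h)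
  have hf0 := H.f_ne Nat.prime_two
  obtain ⟨w, hw⟩ := H.geo.cover.exists_root (N := MM E K0 r) hM
    (mul_ne_zero (AP_ne hX p) (AP_ne hX q)) two_pos (fun Q => by
    have h1 := FF.ord_pow hM Q hr0 2
    rw [H.rpow'] at h1
    rw [FF.ord_mul hM Q (AP_ne hX p) (AP_ne hX q)]
    by_cases hQ : XM E r x ∈ Q.ring
    · obtain ⟨α, hα⟩ := FF.exists_residue hM Q hQ
      have key : ∀ o : Option E, BrP 2 f o → (2 : ℤ) ∣ ord Q.ring (AP (XM E r x) o) := by
        intro o ho
        rcases o with _ | β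
        · show (2 : ℤ) ∣ ord Q.ring (1 : MM E K0 r)
          rw [FF.ord_one hM Q]
          exact dvd_zero _
        · show (2 : ℤ) ∣ ord Q.ring (XM E r x - algebraMap E (MM E K0 r) β)
          by_cases hαβ : β = α
          · subst hαβ
            rw [ord_fin hM hX hα hf0] at h1
            have h2 : (2 : ℤ) ∣ ((f.map (algebraMap k E)).rootMultiplicity β : ℤ) *
                ord Q.ring (XM E r x - algebraMap E (MM E K0 r) β) := ⟨_, h1⟩
            exact (h2p.dvd_or_dvd h2).resolve_left fun h3 => ho (by exact_mod_cast h3)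
          · rw [ord_sub_ne hM hX hα hαβ]
            exact dvd_zero _
      exact_mod_cast dvd_add (key p hp) (key q hq)
    · have hinf : ¬ 2 ∣ f.natDegree → (2 : ℤ) ∣ ord Q.ring (XM E r x) := by
        intro hd
        rw [ord_inf hM hX hQ hf0, Polynomial.natDegree_map] at h1
        have h2 : (2 : ℤ) ∣ (f.natDegree : ℤ) * ord Q.ring (XM E r x) := ⟨_, h1⟩
        exact (h2p.dvd_or_dvd h2).resolve_left fun h3 => hd (by exact_mod_cast h3)
      have e1 : ∀ β : E, ord Q.ring (AP (XM E r x) (some β)) = ord Q.ring (XM E r x) := fun β =>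
        ord_sub_inf hM hQ β
      have e0 : ord Q.ring (AP (XM E r x) (none : Option E)) = 0 := FF.ord_one hM Q
      rcases p with _ | p <;> rcases q with _ | q
      · exact absurd rfl hpq
      · rw [e0, e1, zero_add]
        exact_mod_cast hinf hp
      · rw [e0, e1, add_zero]
        exact_mod_cast hinf hq
      · rw [e1, e1]
        exact ⟨ord Q.ring (XM E r x), by push_cast; ring⟩)
  refine ⟨w, ?_⟩
  rw [hw]
  show ((AP (XM E r x) p : MM E K0 r) : U) * ((AP (XM E r x) q : MM E K0 r) : U) = _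
  rw [coe_AP, coe_AP]
  rfl

theorem isZ_w (H : HypL E 2 x f r) {p q : Option E} (hpq : p ≠ q)
    {b₁ b₂ : Place E (L0 E K0 (U := U))} (h1 : At x b₁ p) (h2 : At x b₂ q) {w : U}
    (hw : w ^ 2 = AP (algebraMap K0 U x) p * AP (algebraMap K0 U x) q) : IsZ b₁ b₂ w := by
  classical
  have hcl : IsAlgClosed E := H.geo.clE
  have hF := H.geo.ff
  have hX := H.trL
  have hg := genL H
  have hf : ((AP (inL0 (E := E) (U := U) x) p * AP (inL0 (E := E) (U := U) x) q :
      L0 E K0 (U := U)) : U) = w ^ 2 := by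
    rw [hw]
    show ((AP (inL0 (E := E) (U := U) x) p : L0 E K0 (U := U)) : U) *
      ((AP (inL0 (E := E) (U := U) x) q : L0 E K0 (U := U)) : U) = _
    rw [coe_AP, coe_AP]
    rfl
  refine ⟨?_, _, hf, fun P => ?_⟩
  · intro h
    rw [h, zero_pow two_ne_zero] at hf
    exact mul_ne_zero (AP_ne hX p) (AP_ne hX q) (Subtype.ext hf)
  · rw [FF.ord_mul hF P (AP_ne hX p) (AP_ne hX q)]
    obtain ⟨o, ho⟩ := at_cases H P
    have e1 : P = b₁ ↔ p = o := ⟨fun h => at_eq h1 (h ▸ ho), fun h => at_unique H ho (h ▸ h1)⟩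
    have e2 : P = b₂ ↔ q = o := ⟨fun h => at_eq h2 (h ▸ ho), fun h => at_unique H ho (h ▸ h2)⟩
    rw [e1, e2]
    rcases o with _ | e
    · rw [ord_AP_inf hF hX hg ho, ord_AP_inf hF hX hg ho]
      by_cases hp : p = none <;> by_cases hq : q = none
      · exact absurd (hp.trans hq.symm) hpq
      · simp [hp, hq]
      · simp [hp, hq]
      · simp [hp, hq]
    · rw [ord_AP_fin hF hX hg (at_nonunits ho), ord_AP_fin hF hX hg (at_nonunits ho)]
      by_cases hp : p = some e <;> by_cases hq : q = some e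
      · exact absurd (hp.trans hq.symm) hpq
      · simp [hp, hq]
      · simp [hp, hq]
      · simp [hp, hq]

/-- the value at the place over `a` -/
theorem val_at (H : HypL E 2 x f r) {a p q : Option E} {pa : Place E (L0 E K0 (U := U))}
    (ha : At x pa a) (hpa : p ≠ a) (hqa : q ≠ a) {w : U}
    (hw : w ^ 2 = AP (algebraMap K0 U x) p * AP (algebraMap K0 U x) q) :
    ∃ l f0 : L0 E K0 (U := U), l ≠ 0 ∧ (∀ T : U ≃+* U, (∀ y : K0, T (algebraMap K0 U y) =
      algebraMap K0 U y) → T (l : U) = l) ∧ (f0 : U) = (w * l) ^ 2 ∧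
      Cg pa.ring f0 (dif a p * dif a q) := by
  have hcl : IsAlgClosed E := H.geo.clE
  have hX0 : inL0 (E := E) (U := U) x ≠ 0 := by
    intro h
    apply H.trL
    rw [h]
    exact isAlgebraic_zero
  rcases a with _ | a
  · rcases p with _ | p
    · exact absurd rfl hpa
    rcases q with _ | q
    · exact absurd rfl hqa
    refine ⟨(inL0 x)⁻¹, (1 - algebraMap E _ p * (inL0 x)⁻¹) * (1 - algebraMap E _ q * (inL0 x)⁻¹),
      inv_ne_zero hX0, ?_, ?_, ?_⟩
    · intro T hT
      show T (algebraMap K0 U x)⁻¹ = (algebraMap K0 U x)⁻¹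
      rw [map_inv₀, hT]
    · show (1 - algebraMap E U p * (algebraMap K0 U x)⁻¹) *
        (1 - algebraMap E U q * (algebraMap K0 U x)⁻¹) = (w * (algebraMap K0 U x)⁻¹) ^ 2
      have hxU : algebraMap K0 U x ≠ 0 := fun h => hX0 (Subtype.ext h)
      have hw' : w ^ 2 = (algebraMap K0 U x - algebraMap E U p) *
        (algebraMap K0 U x - algebraMap E U q) := hw
      rw [mul_pow, hw']
      field_simp
    · have hXi : Cg pa.ring (inL0 (E := E) (U := U) x)⁻¹ (0 : E) := by
        unfold Cg
        rw [map_zero, sub_zero]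
        exact (ValuationSubring.mem_nonunits_iff _).1 (Pool.Agent.PD.Line.inf_nonunits ha)
      have key : ∀ e : E, Cg pa.ring (1 - algebraMap E _ e * (inL0 (E := E) (U := U) x)⁻¹)
          (1 : E) := by
        intro e
        have h3 := (cg_const (V := pa.ring) (1 : E)).add
          (((cg_const (V := pa.ring) e).mul pa.algebraMap_mem hXi).neg)
        rw [map_one, mul_zero, neg_zero, add_zero, ← sub_eq_add_neg] at h3
        exact h3
      exact (key p).mul pa.algebraMap_mem (key q)
  · refine ⟨1, AP (inL0 x) p * AP (inL0 x) q, one_ne_zero, ?_, ?_, ?_⟩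
    · intro T _
      exact map_one T
    · show ((AP (inL0 (E := E) (U := U) x) p : L0 E K0 (U := U)) : U) *
        ((AP (inL0 (E := E) (U := U) x) q : L0 E K0 (U := U)) : U) = (w * 1) ^ 2
      rw [mul_one, hw, coe_AP, coe_AP]
      rfl
    · have key : ∀ o : Option E, Cg pa.ring (AP (inL0 (E := E) (U := U) x) o) (dif (some a) o) := by
        intro o
        rcases o with _ | e
        · have h3 := cg_const (V := pa.ring) (1 : E)
          rw [map_one] at h3
          exact h3
        · have h3 := Cg.add (V := pa.ring) (x := inL0 (E := E) (U := U) x) (c := a) ha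
            ((cg_const (V := pa.ring) e).neg)
          rw [← sub_eq_add_neg, ← sub_eq_add_neg] at h3
          exact h3
      exact (key p).mul pa.algebraMap_mem (key q)

end line

end SG2

open SG2

/-- **The signs.** -/
theorem sG2 : StmtSG2 := by
  intro k K0 E U _ _ _ _ _ _ _ _ _ _ _ _ x f r H a b pa pb ha hb c Φ _ hΦ σ b₁ b₂ d hTd hm1 hm2
    hσd z hz P P' hP hP' hmP hmP'
  have hcl := H.geo.clE
  have hchE : CharZero E := H.chE
  have hF := H.geo.ff
  obtain ⟨p, q, h1, h2, hp, hq, hpq, hpa, hpb, hqa, hqb, hd⟩ := hTd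
  obtain ⟨w, hw⟩ := exists_w2 H hp hq hpq
  have hT : Semi K0 (σ : E ≃+* E) (Φ σ) := ⟨hΦ.const σ, hΦ.fixK σ⟩
  have hσp : ∀ e, p = some e → (σ : E ≃+* E) e = e := at_fix hT h1 hm1
  have hσq : ∀ e, q = some e → (σ : E ≃+* E) e = e := at_fix hT h2 hm2
  have hLN : L0 E K0 (U := U) ≤ NN E K0 2 := L0_le_NN 2
  have hσa : ∀ e, a = some e → (σ : E ≃+* E) e = e := at_fix hT ha (moves_over hLN hP hP hmP)
  have hσb : ∀ e, b = some e → (σ : E ≃+* E) e = e := at_fix hT hb (moves_over hLN hP' hP' hmP')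
  have hz0 := isZ_w H hpq h1 h2 hw
  have hTAP : ∀ o : Option E, (∀ e, o = some e → (σ : E ≃+* E) e = e) →
      Φ σ (AP (algebraMap K0 U x) o) = AP (algebraMap K0 U x) o := by
    intro o ho
    rcases o with _ | e
    · exact map_one _
    · show Φ σ (algebraMap K0 U x - algebraMap E U e) = algebraMap K0 U x - algebraMap E U e
      rw [map_sub, hΦ.fixK, hΦ.const]
      congr 2
      exact ho e rfl
  obtain ⟨ε, hε⟩ : ∃ ε : ℤˣ, Φ σ w = ((ε : ℤ) : U) * w := by
    apply exists_sign
    rw [← map_pow, hw, map_mul, hTAP p hσp, hTAP q hσq]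
  obtain ⟨ρ, hρ⟩ := IsAlgClosed.exists_pow_nat_eq (dif a p * dif a q) two_pos
  obtain ⟨ρ', hρ'⟩ := IsAlgClosed.exists_pow_nat_eq (dif b p * dif b q) two_pos
  have hne : ∀ {v ρ : E}, v ≠ 0 → ρ ^ 2 = v → ρ ≠ 0 := by
    rintro v ρ hv h rfl
    rw [zero_pow two_ne_zero] at h
    exact hv h.symm
  have hρ0 : ρ ≠ 0 := hne (mul_ne_zero (dif_ne hpa) (dif_ne hqa)) hρ
  have hρ'0 : ρ' ≠ 0 := hne (mul_ne_zero (dif_ne hpb) (dif_ne hqb)) hρ'
  obtain ⟨δ, hδ⟩ : ∃ δ : ℤˣ, (σ : E ≃+* E) ρ = ((δ : ℤ) : E) * ρ := by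
    apply exists_sign
    rw [← map_pow, hρ, map_mul, dif_fix hσa hσp, dif_fix hσa hσq]
  obtain ⟨δ', hδ'⟩ : ∃ δ' : ℤˣ, (σ : E ≃+* E) ρ' = ((δ' : ℤ) : E) * ρ' := by
    apply exists_sign
    rw [← map_pow, hρ', map_mul, dif_fix hσb hσp, dif_fix hσb hσq]
  have key : ∀ (o : Option E) (b : Place E (L0 E K0 (U := U))), At x b o → p ≠ o → q ≠ o →
      ∀ ρ : E, ρ ^ 2 = dif o p * dif o q → ρ ≠ 0 → ∀ P : Place E (NN E K0 2 (U := U)),
      OverPl b P → Moves (Φ σ) _ P P → ∀ δ : ℤˣ, (σ : E ≃+* E) ρ = ((δ : ℤ) : E) * ρ →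
      sgn (Φ σ) P z = ε * δ := by
    intro o b hb hpo hqo ρ hρ hρ0 P hP hmP δ hδ
    obtain ⟨l, f0, hl, hTl, hf0, hv⟩ := val_at H hb hpo hqo hw
    exact sgn_wrap hF hz hz0 hP hT hmP hl (hTl (Φ σ) (hΦ.fixK σ)) hf0 hρ0 (by rw [hρ]; exact hv)
      hε hδ
  rw [key a pa ha hpa hqa ρ hρ hρ0 P hP hmP δ hδ, key b pb hb hpb hqb ρ' hρ' hρ'0 P' hP' hmP' δ' hδ']
  intro h
  have h5 : δ = δ' := mul_left_cancel h
  obtain ⟨η, hη⟩ : ∃ η : ℤˣ, d = ((η : ℤ) : E) * (ρ * ρ') := by
    apply exists_sign
    rw [hd, mul_pow, hρ, hρ', dif_prod hpa hpb hqa hqb hpq]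
  have hδ2 : σ ρ = ((δ : ℤ) : E) * ρ := hδ
  have hδ2' : σ ρ' = ((δ' : ℤ) : E) * ρ' := hδ'
  have h6 : σ d = d := by
    rw [hη, map_mul, map_mul, hδ2, hδ2', h5, map_intCast]
    have h7 : ((δ' : ℤ) : E) * ((δ' : ℤ) : E) = 1 := by
      rw [← Int.cast_mul, Int.units_coe_mul_self, Int.cast_one]
    linear_combination ((η : ℤ) : E) * ρ * ρ' * h7
  have hd0 : d ≠ 0 := by
    rintro rfl
    rw [zero_pow two_ne_zero, ← dif_prod hpa hpb hqa hqb hpq] at hd
    exact mul_ne_zero (mul_ne_zero (dif_ne hpa) (dif_ne hqa))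
      (mul_ne_zero (dif_ne hpb) (dif_ne hqb)) hd.symm
  rw [hσd] at h6
  have h7 : (2 : E) * d = 0 := by linear_combination -h6
  rcases mul_eq_zero.1 h7 with h8 | h8
  · exact two_ne_zero h8
  · exact hd0 h8

end Pool.Agent.PDL
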